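import Mathlib

/-!
Global existence for a `C¹` time-dependent vector field from a priori bounds.
-/

set_option autoImplicit false

namespace Pool.Agent.P.MP_bf5038_mp

open Set Metric Filter Topology
open scoped NNReal

/-- continuous induction on symmetric intervals -/
theorem symm_induction (φ : ℝ → ℝ) (c t₀ T : ℝ) (hT : 0 ≤ T)
    (hφ : ContinuousOn φ (Icc (t₀ - T) (t₀ + T))) (h0 : φ t₀ ≤ c)
    (h : ∀ a, 0 ≤ a → a ≤ T → (∀ t ∈ Icc (t₀ - a) (t₀ + a), φ t ≤ c) →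
      ∀ t ∈ Icc (t₀ - a) (t₀ + a), φ t < c) :
    ∀ t ∈ Icc (t₀ - T) (t₀ + T), φ t < c := by
  set ψ : ℝ → ℝ := fun a => max (φ (t₀ + a)) (φ (t₀ - a)) with hψ
  have hψc : ContinuousOn ψ (Icc 0 T) := by
    refine ContinuousOn.sup (hφ.comp (by fun_prop) ?_) (hφ.comp (by fun_prop) ?_)
    · intro a ha; constructor <;> linarith [ha.1, ha.2]
    · intro a ha; constructor <;> linarith [ha.1, ha.2]
  have key : ∀ a, Icc 0 a ⊆ ψ ⁻¹' Iic c → ∀ t ∈ Icc (t₀ - a) (t₀ + a), φ t ≤ c := by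
    intro a ha t ht
    rcases le_total t₀ t with h1 | h1
    · have := ha (show t - t₀ ∈ Icc 0 a from ⟨by linarith, by linarith [ht.2]⟩)
      simp only [hψ, mem_preimage, mem_Iic, max_le_iff] at this
      simpa using this.1
    · have := ha (show t₀ - t ∈ Icc 0 a from ⟨by linarith, by linarith [ht.1]⟩)
      simp only [hψ, mem_preimage, mem_Iic, max_le_iff] at this
      simpa using this.2
  have main : Icc 0 T ⊆ ψ ⁻¹' Iic c := by
    refine IsClosed.Icc_subset_of_forall_mem_nhdsGT_of_Icc_subset ?_ (by simpa [hψ] using h0) ?_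
    · rw [inter_comm]
      exact hψc.preimage_isClosed_of_isClosed isClosed_Icc isClosed_Iic
    · intro a ha hsub
      have h1 := h a ha.1 ha.2.le (key a hsub)
      have h2 : ψ a < c := max_lt (h1 _ ⟨by linarith [ha.1], le_rfl⟩)
        (h1 _ ⟨le_rfl, by linarith [ha.1]⟩)
      have h3 : ∀ᶠ x in 𝓝[Icc 0 T] a, ψ x < c :=
        (hψc a ⟨ha.1, ha.2.le⟩).eventually (gt_mem_nhds h2)
      have h4 : 𝓝[>] a ≤ 𝓝[Icc 0 T] a :=
        nhdsWithin_le_of_mem (mem_of_superset (Ioo_mem_nhdsGT ha.2)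
          fun x hx => ⟨ha.1.trans hx.1.le, hx.2.le⟩)
      exact (h3.filter_mono h4).mono fun x hx => hx.le
  exact h T hT le_rfl (key T main)

variable {E : Type} [NormedAddCommGroup E] [NormedSpace ℝ E] [FiniteDimensional ℝ E]

theorem lipschitz_on_box (V : ℝ → E → E) (hV : ContDiff ℝ 1 fun p : ℝ × E => V p.1 p.2)
    (a b : ℝ) (x₀ : E) (R : ℝ) :
    ∃ K : ℝ≥0, ∀ t ∈ Icc a b, LipschitzOnWith K (V t) (closedBall x₀ R) := by
  obtain ⟨K, hK⟩ := (hV.contDiffOn (s := Icc a b ×ˢ closedBall x₀ R)).exists_lipschitzOnWith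
    one_ne_zero ((convex_Icc a b).prod (convex_closedBall x₀ R))
    (isCompact_Icc.prod (isCompact_closedBall x₀ R))
  refine ⟨K, fun t ht => LipschitzOnWith.of_dist_le_mul fun x hx y hy => ?_⟩
  have := hK.dist_le_mul (t, x) ⟨ht, hx⟩ (t, y) ⟨ht, hy⟩
  simpa [Prod.dist_eq] using this

theorem exists_solution_Icc (V : ℝ → E → E) (hV : ContDiff ℝ 1 fun p : ℝ × E => V p.1 p.2)
    (t₀ : ℝ) (x₀ : E) (T R : ℝ) (hT : 0 ≤ T)
    (hap : ∀ a, 0 ≤ a → a ≤ T → ∀ γ : ℝ → E, γ t₀ = x₀ →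
      (∀ t ∈ Icc (t₀ - a) (t₀ + a), HasDerivWithinAt γ (V t (γ t)) (Icc (t₀ - a) (t₀ + a)) t) →
      ∀ t ∈ Icc (t₀ - a) (t₀ + a), ‖γ t‖ < R) :
    ∃ γ : ℝ → E, γ t₀ = x₀ ∧ ∀ t ∈ Icc (t₀ - T) (t₀ + T),
      HasDerivWithinAt γ (V t (γ t)) (Icc (t₀ - T) (t₀ + T)) t := by
  have hx₀ : ‖x₀‖ < R := by
    refine hap 0 le_rfl hT (fun _ => x₀) rfl (fun t ht => ?_) t₀ (by simp)
    simp only [sub_zero, add_zero, Icc_self]
    exact HasFDerivWithinAt.singleton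
  have hR : 0 < R := (norm_nonneg _).trans_lt hx₀
  let χ : ContDiffBump (0 : E) := ⟨R, R + 1, hR, by linarith⟩
  set W : ℝ → E → E := fun t x => χ x • V t x with hW
  have hWc : ContDiff ℝ 1 fun p : ℝ × E => W p.1 p.2 :=
    ((χ.contDiff (n := 1)).comp contDiff_snd).smul hV
  obtain ⟨L, hL⟩ : ∃ L : ℝ≥0, ∀ t ∈ Icc (t₀ - T) (t₀ + T), ∀ x, ‖W t x‖ ≤ L := by
    obtain ⟨C, hC⟩ := (isCompact_Icc.prod (isCompact_closedBall (0 : E) (R + 1))
      (s := Icc (t₀ - T) (t₀ + T))).exists_bound_of_continuousOn hWc.continuous.continuousOn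
    refine ⟨C.toNNReal, fun t ht x => ?_⟩
    by_cases hx : x ∈ closedBall (0 : E) (R + 1)
    · exact (hC (t, x) ⟨ht, hx⟩).trans (Real.le_coe_toNNReal C)
    · have : χ x = 0 := χ.zero_of_le_dist (not_le.1 (mt mem_closedBall.2 hx)).le
      simp [hW, this]
  obtain ⟨K, hK⟩ := lipschitz_on_box W hWc (t₀ - T) (t₀ + T) x₀ (L * T.toNNReal : ℝ≥0)
  have hpl : IsPicardLindelof W (tmin := t₀ - T) (tmax := t₀ + T)
      ⟨t₀, by constructor <;> linarith⟩ x₀ (L * T.toNNReal) 0 L K :=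
    ⟨hK, fun x _ => (hWc.continuous.comp (by fun_prop : Continuous fun t : ℝ => (t, x))).continuousOn,
      fun t ht x _ => hL t ht x, by simp [hT]⟩
  obtain ⟨γ, hγ0, hγ⟩ := hpl.exists_eq_forall_mem_Icc_hasDerivWithinAt₀
  have hγ0' : γ t₀ = x₀ := hγ0
  have hone : ∀ t x, ‖x‖ ≤ R → W t x = V t x := fun t x hx => by
    have : χ x = 1 := χ.one_of_mem_closedBall (by simpa using hx)
    simp [hW, this]
  have hb := symm_induction (fun t => ‖γ t‖) R t₀ T hT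
    (HasDerivWithinAt.continuousOn hγ).norm (by simpa [hγ0'] using hx₀.le) fun a ha haT hle =>
      hap a ha haT γ hγ0' fun t ht => by
        have hsub : Icc (t₀ - a) (t₀ + a) ⊆ Icc (t₀ - T) (t₀ + T) :=
          Icc_subset_Icc (by linarith) (by linarith)
        rw [← hone t _ (hle t ht)]
        exact (hγ t (hsub ht)).mono hsub
  refine ⟨γ, hγ0', fun t ht => ?_⟩
  rw [← hone t _ (hb t ht).le]
  exact hγ t ht

theorem exists_global_solution (V : ℝ → E → E) (hV : ContDiff ℝ 1 fun p : ℝ × E => V p.1 p.2)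
    (t₀ : ℝ) (x₀ : E)
    (hap : ∀ T : ℝ, ∃ R : ℝ, ∀ a, 0 ≤ a → a ≤ T → ∀ γ : ℝ → E, γ t₀ = x₀ →
      (∀ t ∈ Icc (t₀ - a) (t₀ + a), HasDerivWithinAt γ (V t (γ t)) (Icc (t₀ - a) (t₀ + a)) t) →
      ∀ t ∈ Icc (t₀ - a) (t₀ + a), ‖γ t‖ < R) :
    ∃ γ : ℝ → E, γ t₀ = x₀ ∧ ∀ t, HasDerivAt γ (V t (γ t)) t := by
  choose R hR using hap
  have hex : ∀ n : ℕ, ∃ γ : ℝ → E, γ t₀ = x₀ ∧ ∀ t ∈ Icc (t₀ - n) (t₀ + n),
      HasDerivWithinAt γ (V t (γ t)) (Icc (t₀ - n) (t₀ + n)) t :=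
    fun n => exists_solution_Icc V hV t₀ x₀ n (R n) (Nat.cast_nonneg n) (hR n)
  choose γ hγ0 hγ using hex
  have hres : ∀ (n : ℕ) (a : ℝ), a ≤ n → ∀ t ∈ Icc (t₀ - a) (t₀ + a),
      HasDerivWithinAt (γ n) (V t (γ n t)) (Icc (t₀ - a) (t₀ + a)) t := by
    intro n a ha t ht
    have hsub : Icc (t₀ - a) (t₀ + a) ⊆ Icc (t₀ - n) (t₀ + n) :=
      Icc_subset_Icc (by linarith) (by linarith)
    exact (hγ n t (hsub ht)).mono hsub
  have huniq : ∀ (m n : ℕ) (a : ℝ), 0 < a → a ≤ m → a ≤ n →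
      EqOn (γ m) (γ n) (Ioo (t₀ - a) (t₀ + a)) := by
    intro m n a ha ham han
    obtain ⟨K, hK⟩ := lipschitz_on_box V hV (t₀ - a) (t₀ + a) 0 (R a)
    have aux : ∀ k : ℕ, a ≤ k → ∀ t ∈ Ioo (t₀ - a) (t₀ + a),
        HasDerivAt (γ k) (V t (γ k t)) t ∧ γ k t ∈ closedBall (0 : E) (R a) := by
      intro k hk t ht
      refine ⟨(hres k a hk t (Ioo_subset_Icc_self ht)).hasDerivAt (Icc_mem_nhds ht.1 ht.2), ?_⟩
      simpa using (hR a a ha.le le_rfl (γ k) (hγ0 k) (hres k a hk) t (Ioo_subset_Icc_self ht)).le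
    exact ODE_solution_unique_of_mem_Ioo (t₀ := t₀) (s := fun _ => closedBall (0 : E) (R a))
      (fun t ht => hK t (Ioo_subset_Icc_self ht)) ⟨by linarith, by linarith⟩ (aux m ham)
      (aux n han) (by rw [hγ0, hγ0])
  set N : ℝ → ℕ := fun t => ⌈|t - t₀|⌉₊ + 1 with hN
  have hNt : ∀ t, |t - t₀| + 1 ≤ N t := fun t => by
    simp only [hN]; push_cast; linarith [Nat.le_ceil |t - t₀|]
  refine ⟨fun t => γ (N t) t, hγ0 _, fun t => ?_⟩
  have hloc : ∀ s, |s - t| < 1 → γ (N s) s = γ (N t) s := by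
    intro s hs
    have h1 : |s - t₀| < |t - t₀| + 1 := by
      have := abs_sub_le s t t₀
      linarith
    have h2 : |s - t₀| < min (N s : ℝ) (N t) := lt_min (by linarith [hNt s]) (by linarith [hNt t])
    refine huniq _ _ (min (N s : ℝ) (N t)) ((abs_nonneg _).trans_lt h2) (min_le_left _ _)
      (min_le_right _ _) ?_
    rw [abs_lt] at h2
    constructor <;> linarith [h2.1, h2.2]
  have hev : (fun s => γ (N s) s) =ᶠ[𝓝 t] γ (N t) := by
    filter_upwards [ball_mem_nhds t one_pos] with s hs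
    exact hloc s (by simpa [Real.dist_eq] using hs)
  have hlt : |t - t₀| < N t := by linarith [hNt t]
  rw [abs_lt] at hlt
  have := (hγ (N t) t ⟨by linarith [hlt.1], by linarith [hlt.2]⟩).hasDerivAt
    (Icc_mem_nhds (by linarith [hlt.1]) (by linarith [hlt.2]))
  exact this.congr_of_eventuallyEq hev

end Pool.Agent.P.MP_bf5038_mp
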