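import Mathlib
import Pool.Agent.P.MP_bf5038_mp.GlobalODE

/-!
The barrier estimate: a fast rotating multipole force `conj (ω c e^{iωt} z^n)` confines solutions
of `z'' = conj (ω c e^{iωt} z^n) + F` to a disc for a long time.
-/

set_option autoImplicit false

namespace Pool.Agent.P.MP_bf5038_mp

open Set Complex

/-- corrected energy -/
noncomputable def En (κ G G1 w : ℂ) : ℂ :=
  (w * star w + G * star G) / 2 +
    (κ * (G1 * (w ^ 2 + star G ^ 2)) + star (κ * (G1 * (w ^ 2 + star G ^ 2)))) / 2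

/-- the remainder in the derivative of the correction -/
noncomputable def rest (G G1 G2 w v F : ℂ) : ℂ :=
  G2 * v * (w ^ 2 + star G ^ 2) + 2 * G1 * w * (F - star (G1 * v)) +
    2 * G1 * star G * star (G1 * v)

theorem energy_deriv (G G1 w : ℝ → ℂ) (G2 F v κ μ : ℂ) (s : Set ℝ) (t : ℝ)
    (hκ : κ * μ = 1) (hμ : star μ = -μ)
    (hG : HasDerivWithinAt G (μ * G t + G1 t * v) s t)
    (hG1 : HasDerivWithinAt G1 (μ * G1 t + G2 * v) s t)
    (hw : HasDerivWithinAt w (F - star (G1 t * v)) s t) (hv : v = w t + star (G t)) :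
    HasDerivWithinAt (fun t => En κ (G t) (G1 t) (w t))
      ((F * star (w t) + star (F * star (w t))) / 2 +
        (κ * rest (G t) (G1 t) G2 (w t) v F + star (κ * rest (G t) (G1 t) G2 (w t) v F)) / 2)
      s t := by
  have hP : HasDerivWithinAt (fun t => κ * (G1 t * (w t ^ 2 + star (G t) ^ 2)))
      (G1 t * (w t ^ 2 - star (G t) ^ 2) + κ * rest (G t) (G1 t) G2 (w t) v F) s t := by
    have := (hG1.mul ((hw.pow 2).add (hG.star.pow 2))).const_mul κ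
    refine HasDerivWithinAt.congr_deriv this ?_
    simp only [rest, star_add, star_mul', hμ, Pi.add_apply, Pi.pow_apply]
    simp only [Nat.cast_ofNat, show 2 - 1 = 1 from rfl, pow_one]
    linear_combination (G1 t * (w t ^ 2 - star (G t) ^ 2)) * hκ
  have h0 := (((hw.mul hw.star).add (hG.mul hG.star)).div_const 2).add
    ((hP.add hP.star).div_const 2)
  refine HasDerivWithinAt.congr_deriv h0 ?_
  subst hv
  simp only [star_add, star_sub, star_mul', star_pow, star_star, hμ]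
  ring

theorem norm_add_star_div_two_le (x : ℂ) : ‖(x + star x) / 2‖ ≤ ‖x‖ := by
  have := norm_add_le x (star x)
  rw [norm_star] at this
  rw [norm_div]
  simp only [Complex.norm_ofNat]
  linarith

theorem norm_sq_add_le {G w : ℂ} {B : ℝ} (hG : ‖G‖ ≤ B) (hw : ‖w‖ ≤ B) :
    ‖w ^ 2 + star G ^ 2‖ ≤ 2 * B ^ 2 := by
  refine (norm_add_le _ _).trans ?_
  rw [norm_pow, norm_pow, norm_star]
  have h1 : ‖w‖ ^ 2 ≤ B ^ 2 := by gcongr
  have h2 : ‖G‖ ^ 2 ≤ B ^ 2 := by gcongr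
  linarith

theorem norm_rest_le {G G1 G2 w v F : ℂ} {B N M : ℝ} (hG : ‖G‖ ≤ B) (hw : ‖w‖ ≤ B)
    (hv : ‖v‖ ≤ 2 * B) (hG1 : ‖G1‖ ≤ N * B) (hG2 : ‖G2‖ ≤ N ^ 2 * B) (hF : ‖F‖ ≤ M) :
    ‖rest G G1 G2 w v F‖ ≤ 12 * N ^ 2 * B ^ 4 + 2 * N * B ^ 2 * M := by
  have hB : 0 ≤ B := (norm_nonneg _).trans hG
  have hNB : 0 ≤ N * B := (norm_nonneg _).trans hG1
  have hN2B : 0 ≤ N ^ 2 * B := by positivity
  have h1 := norm_sq_add_le hG hw
  have h2 : ‖star (G1 * v)‖ ≤ N * B * (2 * B) := by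
    rw [norm_star, norm_mul]; gcongr
  have h3 : ‖F - star (G1 * v)‖ ≤ M + N * B * (2 * B) := (norm_sub_le _ _).trans (by linarith)
  have a1 : ‖G2 * v * (w ^ 2 + star G ^ 2)‖ ≤ N ^ 2 * B * (2 * B) * (2 * B ^ 2) := by
    rw [norm_mul, norm_mul]; gcongr
  have a2 : ‖2 * G1 * w * (F - star (G1 * v))‖ ≤ 2 * (N * B) * B * (M + N * B * (2 * B)) := by
    rw [norm_mul, norm_mul, norm_mul, Complex.norm_ofNat]; gcongr
  have a3 : ‖2 * G1 * star G * star (G1 * v)‖ ≤ 2 * (N * B) * B * (N * B * (2 * B)) := by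
    rw [norm_mul, norm_mul, norm_mul, Complex.norm_ofNat, norm_star G]; gcongr
  refine (norm_add₃_le).trans ?_
  nlinarith

theorem En_sub_le {κ G G1 w : ℂ} {B N : ℝ} (hG : ‖G‖ ≤ B) (hw : ‖w‖ ≤ B) (hG1 : ‖G1‖ ≤ N * B) :
    ‖En κ G G1 w - (((‖w‖ ^ 2 + ‖G‖ ^ 2) / 2 : ℝ) : ℂ)‖ ≤ ‖κ‖ * (N * B * (2 * B ^ 2)) := by
  have hNB : 0 ≤ N * B := (norm_nonneg _).trans hG1
  have e : (((‖w‖ ^ 2 + ‖G‖ ^ 2) / 2 : ℝ) : ℂ) = (w * star w + G * star G) / 2 := by
    simp only [Complex.star_def, Complex.mul_conj, Complex.normSq_eq_norm_sq]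
    push_cast
    ring
  rw [e, En, add_sub_cancel_left]
  refine (norm_add_star_div_two_le _).trans ?_
  rw [norm_mul, norm_mul]
  have := norm_sq_add_le hG hw
  gcongr

theorem barrier (k : ℕ) (ω c ρ B M t₀ a : ℝ) (z v Fo : ℝ → ℂ) (hk : 1 ≤ k) (hρ : 1 ≤ ρ)
    (hc : 0 < c) (hcB : c * ρ ^ (k + 2) = B) (hB : 8 ≤ B) (hω : ω = B ^ 4)
    (hnB : ((k + 2 : ℕ) : ℝ) ≤ B) (hM0 : 0 ≤ M) (ha : 0 ≤ a) (hM : 32 * a * M ≤ B)
    (hn2 : 192 * a * ((k + 2 : ℕ) : ℝ) ^ 2 ≤ B ^ 2)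
    (hz : ∀ t ∈ Icc (t₀ - a) (t₀ + a), HasDerivWithinAt z (v t) (Icc (t₀ - a) (t₀ + a)) t)
    (hv : ∀ t ∈ Icc (t₀ - a) (t₀ + a), HasDerivWithinAt v
      (star (ω * c * cexp (I * ω * t) * z t ^ (k + 2)) + Fo t) (Icc (t₀ - a) (t₀ + a)) t)
    (hF : ∀ t ∈ Icc (t₀ - a) (t₀ + a), ‖z t‖ ≤ ρ → ‖Fo t‖ ≤ M)
    (hz0 : ‖z t₀‖ ≤ ρ / 2) (hv0 : ‖v t₀‖ ≤ B / 8) :
    ∀ t ∈ Icc (t₀ - a) (t₀ + a), ‖z t‖ ≤ ρ ∧ ‖v t‖ ≤ 2 * B := by
  set N : ℝ := ((k + 2 : ℕ) : ℝ) with hN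
  have hB0 : 0 < B := by linarith
  have hω0 : 0 < ω := by rw [hω]; positivity
  have hN0 : 0 ≤ N := Nat.cast_nonneg _
  set e : ℝ → ℂ := fun t => -I * c * cexp (I * ω * t) with he
  have hne : ∀ t, ‖e t‖ = c := fun t => by
    have : ‖cexp (I * ω * t)‖ = 1 := by
      rw [Complex.norm_exp]; simp
    simp [he, this, hc.le]
  have hde : ∀ t, HasDerivAt e (I * ω * e t) t := fun t => by
    have h1 : HasDerivAt (fun t : ℝ => I * ω * (t : ℂ)) (I * ω) t := by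
      simpa using (Complex.ofRealCLM.hasDerivAt (x := t)).const_mul (I * ω)
    have := h1.cexp.const_mul (-I * c)
    refine HasDerivAt.congr_deriv this ?_
    simp only [he]; ring
  set G : ℝ → ℂ := fun t => e t * z t ^ (k + 2) with hG
  set G1 : ℝ → ℂ := fun t => e t * ((k + 2 : ℕ) * z t ^ (k + 1)) with hG1
  set G2 : ℝ → ℂ := fun t => e t * ((k + 2 : ℕ) * ((k + 1 : ℕ) * z t ^ k)) with hG2
  set w : ℝ → ℂ := fun t => v t - star (G t) with hw
  set S := Icc (t₀ - a) (t₀ + a) with hS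
  have dG : ∀ t ∈ S, HasDerivWithinAt G (I * ω * G t + G1 t * v t) S t := fun t ht => by
    have := (hde t).hasDerivWithinAt.mul ((hz t ht).pow (k + 2))
    refine HasDerivWithinAt.congr_deriv this ?_
    simp only [hG, hG1, Pi.pow_apply]
    rw [show k + 2 - 1 = k + 1 from rfl]
    ring
  have dG1 : ∀ t ∈ S, HasDerivWithinAt G1 (I * ω * G1 t + G2 t * v t) S t := fun t ht => by
    have := (hde t).hasDerivWithinAt.mul
      (((hz t ht).pow (k + 1)).const_mul ((k + 2 : ℕ) : ℂ))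
    refine HasDerivWithinAt.congr_deriv this ?_
    simp only [hG1, hG2, Pi.pow_apply]
    rw [show k + 1 - 1 = k from rfl]
    ring
  have dw : ∀ t ∈ S, HasDerivWithinAt w (Fo t - star (G1 t * v t)) S t := fun t ht => by
    have := (hv t ht).sub (dG t ht).star
    refine HasDerivWithinAt.congr_deriv this ?_
    have e1 : I * ω * G t = ω * c * cexp (I * ω * t) * z t ^ (k + 2) := by
      simp only [hG, he]
      linear_combination (-(ω * c * cexp (I * ω * t) * z t ^ (k + 2))) * I_mul_I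
    rw [star_add, e1]
    ring
  have hvw : ∀ t, v t = w t + star (G t) := fun t => by simp [hw]
  set κ : ℂ := -I / ω with hκ
  have hκn : ‖κ‖ = 1 / B ^ 4 := by simp [hκ, hω, hB0.le]
  have hκ1 : κ * (I * ω) = 1 := by
    have : (ω : ℂ) ≠ 0 := by exact_mod_cast hω0.ne'
    simp only [hκ]
    field_simp
    simp
  have hμ : star (I * ω : ℂ) = -(I * ω) := by simp
  have nG : ∀ t, ‖G t‖ = c * ‖z t‖ ^ (k + 2) := fun t => by simp [hG, hne]
  have zle : ∀ t, ‖G t‖ ≤ B → ‖z t‖ ≤ ρ := fun t h => by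
    rw [nG, ← hcB] at h
    exact le_of_pow_le_pow_left₀ (by omega) (by linarith) (le_of_mul_le_mul_left h hc)
  have pw : ∀ t, ‖z t‖ ≤ ρ → ∀ j, j ≤ k + 2 → c * ‖z t‖ ^ j ≤ B := fun t h j hj => by
    rw [← hcB]
    have h1 : ‖z t‖ ^ j ≤ ρ ^ j := by gcongr
    have h2 : ρ ^ j ≤ ρ ^ (k + 2) := pow_le_pow_right₀ hρ hj
    have := h1.trans h2
    gcongr
  have nG1 : ∀ t, ‖z t‖ ≤ ρ → ‖G1 t‖ ≤ N * B := fun t h => by
    have := pw t h (k + 1) (by omega)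
    simp only [hG1, norm_mul, hne, norm_pow, Complex.norm_natCast]
    calc _ = N * (c * ‖z t‖ ^ (k + 1)) := by rw [hN]; ring
      _ ≤ _ := by gcongr
  have nG2 : ∀ t, ‖z t‖ ≤ ρ → ‖G2 t‖ ≤ N ^ 2 * B := fun t h => by
    have := pw t h k (by omega)
    have h1 : ((k + 1 : ℕ) : ℝ) ≤ N := by rw [hN]; exact_mod_cast Nat.le_succ _
    simp only [hG2, norm_mul, hne, norm_pow, Complex.norm_natCast]
    calc _ = N * ((k + 1 : ℕ) : ℝ) * (c * ‖z t‖ ^ k) := by rw [hN]; ring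
      _ ≤ N * N * B := by gcongr
      _ = _ := by ring
  set φ : ℝ → ℝ := fun t => (‖w t‖ ^ 2 + ‖G t‖ ^ 2) / 2 with hφ
  have hφle : ∀ t, φ t ≤ B ^ 2 / 2 → ‖w t‖ ≤ B ∧ ‖G t‖ ≤ B := fun t h => by
    simp only [hφ] at h
    constructor
    · exact le_of_pow_le_pow_left₀ two_ne_zero hB0.le (by nlinarith [sq_nonneg ‖G t‖])
    · exact le_of_pow_le_pow_left₀ two_ne_zero hB0.le (by nlinarith [sq_nonneg ‖w t‖])
  have hφ0 : φ t₀ ≤ B ^ 2 / 8 := by
    have h1 : ‖G t₀‖ ≤ B / 8 := by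
      rw [nG, ← hcB]
      have h2 : ‖z t₀‖ ^ (k + 2) ≤ (ρ / 2) ^ (k + 2) := by gcongr
      have h3 : (2 : ℝ) ^ 3 ≤ 2 ^ (k + 2) := pow_le_pow_right₀ one_le_two (by omega)
      have h4 : (ρ / 2) ^ (k + 2) ≤ ρ ^ (k + 2) / 8 := by
        rw [div_pow]
        gcongr
        linarith
      have := h2.trans h4
      calc _ ≤ c * (ρ ^ (k + 2) / 8) := by gcongr
        _ = _ := by ring
    have h2 : ‖w t₀‖ ≤ B / 4 := by
      refine (norm_sub_le _ _).trans ?_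
      rw [norm_star]; linarith
    have h3 : ‖w t₀‖ ^ 2 ≤ (B / 4) ^ 2 := by gcongr
    have h4 : ‖G t₀‖ ^ 2 ≤ (B / 8) ^ 2 := by gcongr
    simp only [hφ]
    nlinarith
  have hφc : ContinuousOn φ S :=
    ((((HasDerivWithinAt.continuousOn dw).norm.pow 2).add
      ((HasDerivWithinAt.continuousOn dG).norm.pow 2)).div_const 2)
  have main := symm_induction φ (B ^ 2 / 2) t₀ a ha hφc (by nlinarith) fun b hb hba hle t ht => by
    have hsub : Icc (t₀ - b) (t₀ + b) ⊆ S := Icc_subset_Icc (by linarith) (by linarith)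
    have ht₀ : t₀ ∈ Icc (t₀ - b) (t₀ + b) := ⟨by linarith, by linarith⟩
    have hD := fun s (hs : s ∈ Icc (t₀ - b) (t₀ + b)) =>
      (energy_deriv G G1 w (G2 s) (Fo s) (v s) κ (I * ω) S s hκ1 hμ (dG s (hsub hs))
        (dG1 s (hsub hs)) (dw s (hsub hs)) (hvw s)).mono hsub
    have hmv := (convex_Icc (t₀ - b) (t₀ + b)).norm_image_sub_le_of_norm_hasDerivWithin_le
      (C := M * B + 1 / B ^ 4 * (12 * N ^ 2 * B ^ 4 + 2 * N * B ^ 2 * M)) hD (fun s hs => by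
        obtain ⟨h1, h2⟩ := hφle s (hle s hs)
        have h3 := zle s h2
        have h4 : ‖v s‖ ≤ 2 * B := by
          rw [hvw s]
          refine (norm_add_le _ _).trans ?_
          rw [norm_star]; linarith
        have h5 := hF s (hsub hs) h3
        refine (norm_add_le _ _).trans (add_le_add ?_ ?_)
        · refine (norm_add_star_div_two_le _).trans ?_
          rw [norm_mul, norm_star]
          gcongr
        · refine (norm_add_star_div_two_le _).trans ?_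
          rw [norm_mul, hκn]
          have := norm_rest_le h2 h1 h4 (nG1 s h3) (nG2 s h3) h5
          gcongr) ht₀ ht
    have hE : ∀ s ∈ Icc (t₀ - b) (t₀ + b), ‖En κ (G s) (G1 s) (w s) - (φ s : ℂ)‖ ≤ 2 := by
      intro s hs
      obtain ⟨h1, h2⟩ := hφle s (hle s hs)
      refine (En_sub_le h2 h1 (nG1 s (zle s h2))).trans ?_
      rw [hκn]
      calc _ ≤ 1 / B ^ 4 * (B * B * (2 * B ^ 2)) := by gcongr
        _ = 2 := by field_simp
    have htt : ‖t - t₀‖ ≤ a := by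
      rw [Real.norm_eq_abs, abs_le]
      constructor <;> linarith [ht.1, ht.2]
    have hC : M * B + 1 / B ^ 4 * (12 * N ^ 2 * B ^ 4 + 2 * N * B ^ 2 * M) ≤
        M * B + 12 * N ^ 2 + 2 * M := by
      have : 1 / B ^ 4 * (2 * N * B ^ 2 * M) ≤ 2 * M := by
        calc _ ≤ 1 / B ^ 4 * (2 * B ^ 2 * B ^ 2 * M) := by
              gcongr; nlinarith
          _ = _ := by field_simp
      have h2 : 1 / B ^ 4 * (12 * N ^ 2 * B ^ 4) = 12 * N ^ 2 := by field_simp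
      rw [mul_add, h2]
      linarith
    have hmv2 : ‖En κ (G t) (G1 t) (w t) - En κ (G t₀) (G1 t₀) (w t₀)‖ ≤
        (M * B + 12 * N ^ 2 + 2 * M) * a := by
      refine hmv.trans ?_
      gcongr
    have hdiff : φ t - φ t₀ ≤ 2 + (M * B + 12 * N ^ 2 + 2 * M) * a + 2 := by
      have e1 : ((φ t - φ t₀ : ℝ) : ℂ) = -(En κ (G t) (G1 t) (w t) - (φ t : ℂ)) +
          (En κ (G t) (G1 t) (w t) - En κ (G t₀) (G1 t₀) (w t₀)) +
          (En κ (G t₀) (G1 t₀) (w t₀) - (φ t₀ : ℂ)) := by push_cast; ring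
      have e2 : φ t - φ t₀ ≤ ‖((φ t - φ t₀ : ℝ) : ℂ)‖ := by
        rw [Complex.norm_real]; exact le_abs_self _
      rw [e1] at e2
      refine e2.trans (norm_add₃_le.trans ?_)
      rw [norm_neg]
      linarith [hE t ht, hE t₀ ht₀]
    have h1 : M * B * a ≤ B ^ 2 / 32 := by nlinarith
    have h2 : 2 * M * a ≤ B ^ 2 / 16 := by nlinarith
    nlinarith
  intro t ht
  obtain ⟨h1, h2⟩ := hφle t (main t ht).le
  refine ⟨zle t h2, ?_⟩
  rw [hvw t]
  refine (norm_add_le _ _).trans ?_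
  rw [norm_star]; linarith

end Pool.Agent.P.MP_bf5038_mp
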