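import Mathlib

/-!
Metrics on `ℝ⁴` in coordinates: Christoffel symbols, Ricci tensor, geodesics, pp-waves.
-/

set_option autoImplicit false

noncomputable section

namespace Pool.Agent.P.MP_bf5038_mp.H

/-- points of `ℝ⁴`; the coordinates `0, 1, 2, 3` are `u, v, x, y` -/
abbrev Pt : Type := Fin 4 → ℝ

/-- a field of `4 × 4` matrices `g_{ij}` on `ℝ⁴` -/
abbrev Met : Type := Pt → Matrix (Fin 4) (Fin 4) ℝ

/-- the partial derivative in the `i`-th coordinate -/
def pd (i : Fin 4) (f : Pt → ℝ) (p : Pt) : ℝ := deriv (fun t => f (Function.update p i t)) (p i)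

/-- the Christoffel symbols `Γ^k_{ij}` of the Levi-Civita connection -/
def chr (g : Met) (k i j : Fin 4) (p : Pt) : ℝ :=
  1 / 2 * ∑ l, (g p)⁻¹ k l *
    (pd i (fun q => g q j l) p + pd j (fun q => g q i l) p - pd l (fun q => g q i j) p)

/-- the Ricci tensor `R_{ij}` -/
def ricci (g : Met) (i j : Fin 4) (p : Pt) : ℝ :=
  ∑ k, (pd k (chr g k i j) p - pd j (chr g k i k) p +
    ∑ l, (chr g k k l p * chr g l i j p - chr g k j l p * chr g l i k p))

/-- `γ` is an affinely parametrised geodesic on `I` -/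
def IsGeodesicOn (g : Met) (γ : ℝ → Pt) (I : Set ℝ) : Prop :=
  ∃ γ' : ℝ → Pt, ∀ s ∈ I, HasDerivAt γ (γ' s) s ∧
    HasDerivAt γ' (fun k => -∑ i, ∑ j, chr g k i j (γ s) * γ' s i * γ' s j) s

/-- every geodesic defined on an open interval extends to a geodesic defined on `ℝ` -/
def Complete (g : Met) : Prop :=
  ∀ I : Set ℝ, IsOpen I → I.OrdConnected → ∀ γ : ℝ → Pt, IsGeodesicOn g γ I →
    ∃ δ : ℝ → Pt, IsGeodesicOn g δ Set.univ ∧ Set.EqOn δ γ I

/-- the pp-wave `2 du dv + H du² + dx² + dy²` -/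
def ppw (H : ℝ → ℝ → ℝ → ℝ) : Met := fun p =>
  !![H (p 0) (p 2) (p 3), 1, 0, 0; 1, 0, 0, 0; 0, 0, 1, 0; 0, 0, 0, 1]

end Pool.Agent.P.MP_bf5038_mp.H
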