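import Mathlib

/-!
The lacunary series `∑ a_k e^{i ω_k u} z^{N_k}` and its derivatives.
-/

set_option autoImplicit false

namespace Pool.Agent.P.MP_bf5038_mp

open Set Complex Filter Metric

def m : ℕ → ℕ
  | 0 => 12
  | k + 1 => (8 * k + 16) * m k

theorem m_ge (k : ℕ) : k + 12 ≤ m k := by
  induction k with
  | zero => simp [m]
  | succ k ih => simp only [m]; nlinarith

theorem m_mono : Monotone m := monotone_nat_of_le_succ fun k => by
  simp only [m]; nlinarith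

noncomputable def Bk (k : ℕ) : ℝ := 2 ^ m k
noncomputable def om (k : ℕ) : ℝ := Bk k ^ 4
noncomputable def rho (k : ℕ) : ℝ := 4 ^ k
noncomputable def cc (k : ℕ) : ℝ := Bk k / rho k ^ (4 * m k)
noncomputable def coef (k : ℕ) : ℝ := 2 * om k * cc k / ((4 * m k + 1 : ℕ) : ℝ)

theorem two_le_Bk (k : ℕ) : 2 ≤ Bk k := by
  have := m_ge k
  calc (2 : ℝ) = 2 ^ 1 := by norm_num
    _ ≤ _ := pow_le_pow_right₀ one_le_two (by omega)

theorem Bk_pos (k : ℕ) : 0 < Bk k := by linarith [two_le_Bk k]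
theorem one_le_Bk (k : ℕ) : 1 ≤ Bk k := by linarith [two_le_Bk k]
theorem rho_pos (k : ℕ) : 0 < rho k := by unfold rho; positivity
theorem om_pos (k : ℕ) : 0 < om k := pow_pos (Bk_pos k) 4
theorem cc_pos (k : ℕ) : 0 < cc k := div_pos (Bk_pos k) (pow_pos (rho_pos k) _)
theorem coef_pos (k : ℕ) : 0 < coef k :=
  div_pos (mul_pos (mul_pos two_pos (om_pos k)) (cc_pos k)) (by positivity)

theorem rho_pow (j k : ℕ) : rho j ^ (4 * m k) = Bk k ^ (8 * j) := by
  unfold rho Bk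
  rw [show (4 : ℝ) = 2 ^ 2 by norm_num, ← pow_mul, ← pow_mul, ← pow_mul]
  congr 1
  ring

noncomputable def term (p q k : ℕ) (x : ℝ × ℂ) : ℂ :=
  coef k * (I * om k) ^ p * cexp (I * om k * x.1) *
    ((4 * m k + 1).descFactorial q * x.2 ^ (4 * m k + 1 - q))

noncomputable def F (p q : ℕ) (x : ℝ × ℂ) : ℂ := ∑' k, term p q k x

noncomputable def L1 : ℝ × ℂ →L[ℝ] ℂ := ofRealCLM.comp (ContinuousLinearMap.fst ℝ ℝ ℂ)
noncomputable def L2 : ℝ × ℂ →L[ℝ] ℂ := ContinuousLinearMap.snd ℝ ℝ ℂ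

theorem norm_L1 : ‖L1‖ ≤ 1 := ContinuousLinearMap.opNorm_le_bound _ zero_le_one fun x => by
  simpa [L1] using norm_fst_le x

theorem norm_L2 : ‖L2‖ ≤ 1 := ContinuousLinearMap.opNorm_le_bound _ zero_le_one fun x => by
  simp [L2, norm_snd_le x]

theorem hasFDerivAt_term (p q k : ℕ) (x : ℝ × ℂ) :
    HasFDerivAt (term p q k) (term (p + 1) q k x • L1 + term p (q + 1) k x • L2) x := by
  have h1 : HasFDerivAt (fun y : ℝ × ℂ => I * om k * (y.1 : ℂ)) ((I * om k : ℂ) • L1) x :=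
    L1.hasFDerivAt.const_mul (I * om k : ℂ)
  have h2 := (h1.cexp.const_mul (coef k * (I * om k) ^ p : ℂ)).mul
    ((L2.hasFDerivAt.pow (4 * m k + 1 - q) (x := x)).const_mul
      ((4 * m k + 1).descFactorial q : ℂ))
  refine HasFDerivAt.congr_fderiv h2 ?_
  ext y <;> simp [term, L1, L2, Nat.descFactorial_succ, Nat.sub_sub] <;> ring

theorem norm_cexp_om (k : ℕ) (u : ℝ) : ‖cexp (I * om k * u)‖ = 1 := by
  rw [Complex.norm_exp]; simp

theorem norm_term_le (p q k r : ℕ) (x : ℝ × ℂ) (hx : ‖x.2‖ ≤ 2 ^ r) :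
    ‖term p q k x‖ ≤ 2 * (Bk k ^ (5 + 4 * p + 5 * q + 5 * r) / Bk k ^ (8 * k)) := by
  have hm := m_ge k
  have hB := Bk_pos k
  have h1 : coef k ≤ 2 * (Bk k ^ 5 / Bk k ^ (8 * k)) := by
    have : coef k ≤ 2 * om k * cc k :=
      div_le_self (mul_pos (mul_pos two_pos (om_pos k)) (cc_pos k)).le
        (by exact_mod_cast Nat.le_add_left 1 _)
    refine this.trans (le_of_eq ?_)
    rw [om, cc, rho_pow]; ring
  have h2 : (((4 * m k + 1).descFactorial q : ℕ) : ℝ) ≤ Bk k ^ (5 * q) := by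
    have a1 : 4 * m k + 1 ≤ 2 ^ (5 * m k) := le_trans (by omega) Nat.lt_two_pow_self.le
    have a2 : (4 * m k + 1).descFactorial q ≤ (2 ^ (5 * m k)) ^ q :=
      (Nat.descFactorial_le_pow _ _).trans (Nat.pow_le_pow_left a1 q)
    have a3 : Bk k ^ (5 * q) = (((2 ^ (5 * m k)) ^ q : ℕ) : ℝ) := by
      unfold Bk; push_cast; rw [← pow_mul, ← pow_mul]; congr 1; ring
    rw [a3]; exact_mod_cast a2
  have h3 : ‖x.2‖ ^ (4 * m k + 1 - q) ≤ Bk k ^ (5 * r) := by
    calc _ ≤ ((2 : ℝ) ^ r) ^ (4 * m k + 1 - q) := by gcongr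
      _ ≤ ((2 : ℝ) ^ r) ^ (5 * m k) := pow_le_pow_right₀ (one_le_pow₀ one_le_two) (by omega)
      _ = _ := by unfold Bk; rw [← pow_mul, ← pow_mul]; congr 1; ring
  have h4 : ‖(I * om k : ℂ) ^ p‖ = Bk k ^ (4 * p) := by
    rw [norm_pow, norm_mul, norm_I, one_mul, norm_real, Real.norm_of_nonneg (om_pos k).le, om,
      ← pow_mul]
  rw [term, norm_mul, norm_mul, norm_mul, norm_mul, h4, norm_cexp_om, norm_real,
    Real.norm_of_nonneg (coef_pos k).le, norm_natCast, norm_pow]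
  calc _ ≤ 2 * (Bk k ^ 5 / Bk k ^ (8 * k)) * Bk k ^ (4 * p) * 1 *
        (Bk k ^ (5 * q) * Bk k ^ (5 * r)) := by gcongr
    _ = _ := by ring

theorem summable_aux (s : ℕ) : Summable fun k => 2 * (Bk k ^ s / Bk k ^ (8 * k)) := by
  refine Summable.mul_left 2 (Summable.of_norm_bounded_eventually_nat summable_geometric_two ?_)
  filter_upwards [eventually_ge_atTop s] with k hk
  have hB := Bk_pos k
  rw [Real.norm_of_nonneg (by positivity), div_le_iff₀ (by positivity)]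
  have h1 : Bk k ^ s ≤ Bk k ^ (7 * k) := pow_le_pow_right₀ (one_le_Bk k) (by omega)
  have h2 : (2 : ℝ) ^ k ≤ Bk k ^ k := pow_le_pow_left₀ (by norm_num) (two_le_Bk k) k
  calc _ ≤ Bk k ^ (7 * k) := h1
    _ = (1 / 2) ^ k * (2 ^ k * Bk k ^ (7 * k)) := by
        rw [← mul_assoc, ← mul_pow]; norm_num
    _ ≤ (1 / 2) ^ k * (Bk k ^ k * Bk k ^ (7 * k)) := by gcongr
    _ = _ := by ring

theorem exists_lt_two_pow (z : ℂ) : ∃ r : ℕ, ‖z‖ < 2 ^ r := pow_unbounded_of_one_lt _ one_lt_two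

theorem summable_term (p q : ℕ) (x : ℝ × ℂ) : Summable fun k => term p q k x := by
  obtain ⟨r, hr⟩ := exists_lt_two_pow x.2
  exact Summable.of_norm_bounded (summable_aux _) fun k => norm_term_le p q k r x hr.le

theorem hasFDerivAt_F (p q : ℕ) (x : ℝ × ℂ) :
    HasFDerivAt (F p q) (F (p + 1) q x • L1 + F p (q + 1) x • L2) x := by
  obtain ⟨r, hr⟩ := exists_lt_two_pow x.2
  have hx : x ∈ (univ : Set ℝ) ×ˢ ball (0 : ℂ) (2 ^ r) := ⟨trivial, by simpa using hr⟩
  have := hasFDerivAt_tsum_of_isPreconnected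
    ((summable_aux (5 + 4 * (p + 1) + 5 * q + 5 * r)).add
      (summable_aux (5 + 4 * p + 5 * (q + 1) + 5 * r)))
    (isOpen_univ.prod isOpen_ball) (convex_univ.prod (convex_ball _ _)).isPreconnected
    (fun k y _ => hasFDerivAt_term p q k y) (fun k y hy => by
      have hy' : ‖y.2‖ ≤ 2 ^ r := le_of_lt (by simpa using hy.2)
      refine (norm_add_le _ _).trans (add_le_add ?_ ?_)
      · rw [norm_smul]
        exact (mul_le_of_le_one_right (norm_nonneg _) norm_L1).trans (norm_term_le _ _ _ _ _ hy')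
      · rw [norm_smul]
        exact (mul_le_of_le_one_right (norm_nonneg _) norm_L2).trans (norm_term_le _ _ _ _ _ hy'))
    hx (summable_term p q x) hx
  refine HasFDerivAt.congr_fderiv this ?_
  rw [Summable.tsum_add ((summable_term _ _ x).smul_const L1) ((summable_term _ _ x).smul_const L2),
    (summable_term _ _ x).tsum_smul_const, (summable_term _ _ x).tsum_smul_const]
  rfl

theorem contDiff_F_nat (j : ℕ) : ∀ p q, ContDiff ℝ j (F p q) := by
  induction j with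
  | zero =>
    exact fun p q => contDiff_zero.2
      (continuous_iff_continuousAt.2 fun x => (hasFDerivAt_F p q x).continuousAt)
  | succ j ih =>
    intro p q
    rw [Nat.cast_succ, contDiff_succ_iff_hasFDerivAt]
    exact ⟨_, ((ih _ _).smul contDiff_const).add ((ih _ _).smul contDiff_const),
      hasFDerivAt_F p q⟩

theorem contDiff_F (p q : ℕ) : ContDiff ℝ ((⊤ : ℕ∞) : WithTop ℕ∞) (F p q) :=
  contDiff_infty.2 fun j => contDiff_F_nat j p q

theorem hasDerivAt_F_comp (p q : ℕ) {u : ℝ → ℝ} {ζ : ℝ → ℂ} {u' : ℝ} {ζ' : ℂ} {s : ℝ}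
    (hu : HasDerivAt u u' s) (hζ : HasDerivAt ζ ζ' s) :
    HasDerivAt (fun s => F p q (u s, ζ s))
      (F (p + 1) q (u s, ζ s) * u' + F p (q + 1) (u s, ζ s) * ζ') s := by
  have := (hasFDerivAt_F p q (u s, ζ s)).comp_hasDerivAt s (hu.prodMk hζ)
  refine HasDerivAt.congr_deriv this ?_
  simp [L1, L2]

/-- the `k`-th force term -/
noncomputable def force (k : ℕ) (u : ℝ) (z : ℂ) : ℂ :=
  om k * cc k * cexp (I * om k * u) * z ^ (4 * m k)

theorem term_zero_one (k : ℕ) (u : ℝ) (z : ℂ) : term 0 1 k (u, z) = 2 * force k u z := by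
  have : ((4 * m k + 1 : ℕ) : ℂ) ≠ 0 := Nat.cast_ne_zero.2 (by omega)
  simp only [term, force, coef, pow_zero, mul_one, Nat.descFactorial_one, Nat.add_sub_cancel]
  push_cast at this ⊢
  field_simp

theorem norm_force (j : ℕ) (u : ℝ) (z : ℂ) :
    ‖force j u z‖ = Bk j ^ 5 * ‖z‖ ^ (4 * m j) / Bk j ^ (8 * j) := by
  rw [force, norm_mul, norm_mul, norm_mul, norm_cexp_om, norm_real, norm_real,
    Real.norm_of_nonneg (om_pos j).le, Real.norm_of_nonneg (cc_pos j).le, norm_pow, om, cc,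
    rho_pow]
  ring

theorem norm_force_le (j k : ℕ) (u : ℝ) (z : ℂ) (hz : ‖z‖ ≤ rho k) :
    ‖force j u z‖ ≤ Bk j ^ (5 + 8 * k) / Bk j ^ (8 * j) := by
  have := Bk_pos j
  rw [norm_force, pow_add, ← rho_pow k]
  gcongr

theorem F_zero_one (k : ℕ) (u : ℝ) (z : ℂ) :
    F 0 1 (u, z) / 2 = force k u z + ∑' j, if j = k then 0 else force j u z := by
  have hs : Summable fun j => force j u z := by
    have := (summable_term 0 1 (u, z)).div_const 2
    simpa [term_zero_one] using this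
  rw [← hs.tsum_eq_add_tsum_ite k, F]
  simp only [term_zero_one]
  rw [tsum_mul_left]
  ring

theorem norm_other_le (k : ℕ) (u : ℝ) (z : ℂ) (hz : ‖z‖ ≤ rho (k + 1)) :
    ‖∑' j, if j = k + 1 then 0 else force j u z‖ ≤ (k + 1) * Bk k ^ (8 * k + 13) + 2 := by
  have h1 : HasSum (fun j => if j < k + 1 then Bk k ^ (8 * k + 13) else 0)
      ((k + 1) * Bk k ^ (8 * k + 13)) := by
    have := hasSum_sum_of_ne_finset_zero (L := SummationFilter.unconditional ℕ)
      (f := fun j => if j < k + 1 then Bk k ^ (8 * k + 13) else 0) (s := Finset.range (k + 1))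
      (fun j hj => if_neg (by simpa using hj))
    rwa [Finset.sum_congr rfl (g := fun _ => Bk k ^ (8 * k + 13))
      (fun j hj => if_pos (by simpa using hj)), Finset.sum_const, Finset.card_range,
      nsmul_eq_mul, Nat.cast_succ] at this
  refine tsum_of_norm_bounded (h1.add hasSum_geometric_two) fun j => ?_
  have hBj := Bk_pos j
  have hBk := Bk_pos k
  have h2 := norm_force_le j (k + 1) u z hz
  rcases lt_trichotomy j (k + 1) with h | h | h
  · rw [if_neg h.ne, if_pos h]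
    have a1 : Bk j ≤ Bk k := pow_le_pow_right₀ one_le_two (m_mono (by omega))
    have a2 : Bk j ^ (5 + 8 * (k + 1)) / Bk j ^ (8 * j) ≤ Bk k ^ (8 * k + 13) :=
      (div_le_self (by positivity) (one_le_pow₀ (one_le_Bk j))).trans (by
        rw [show 5 + 8 * (k + 1) = 8 * k + 13 by ring]; gcongr)
    have : (0 : ℝ) ≤ (1 / 2) ^ j := by positivity
    linarith
  · rw [if_pos h, if_neg (by omega)]
    simp
  · rw [if_neg h.ne', if_neg (by omega), zero_add]
    refine h2.trans ?_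
    rw [div_le_iff₀ (by positivity)]
    have a1 : (2 : ℝ) ^ j ≤ Bk j := pow_le_pow_right₀ one_le_two (by linarith [m_ge j])
    calc _ = (1 / 2) ^ j * (2 ^ j * Bk j ^ (5 + 8 * (k + 1))) := by
          rw [← mul_assoc, ← mul_pow]; norm_num
      _ ≤ (1 / 2) ^ j * (Bk j * Bk j ^ (5 + 8 * (k + 1))) := by gcongr
      _ ≤ _ := by
          rw [← pow_succ']
          gcongr
          · exact one_le_Bk j
          · omega

theorem cube_le (n : ℕ) (hn : 12 ≤ n) : 3072 * n ^ 3 ≤ (2 ^ n) ^ 2 := by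
  induction n, hn using Nat.le_induction with
  | base => norm_num
  | succ n hn ih =>
    have : (n + 1) ^ 3 ≤ 4 * n ^ 3 := by nlinarith [Nat.mul_le_mul hn hn]
    calc _ ≤ 4 * (3072 * n ^ 3) := by omega
      _ ≤ 4 * (2 ^ n) ^ 2 := by omega
      _ = _ := by ring

theorem param_M (k : ℕ) :
    32 * ((k : ℝ) + 1) * ((k + 1) * Bk k ^ (8 * k + 13) + 2) ≤ Bk (k + 1) := by
  have h1 : Bk (k + 1) = Bk k ^ 3 * Bk k ^ (8 * k + 13) := by
    unfold Bk; rw [m, ← pow_mul, ← pow_mul, ← pow_add]; congr 1; ring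
  have hm := m_ge k
  have h2 : (k : ℝ) + 1 ≤ Bk k := by
    have : k + 1 ≤ 2 ^ m k := le_trans (by omega) Nat.lt_two_pow_self.le
    unfold Bk; exact_mod_cast this
  have h3 : (96 : ℝ) ≤ Bk k := by
    calc (96 : ℝ) ≤ 2 ^ 12 := by norm_num
      _ ≤ _ := pow_le_pow_right₀ one_le_two (by omega)
  have h4 : 1 ≤ Bk k ^ (8 * k + 13) := one_le_pow₀ (one_le_Bk k)
  have h5 : (1 : ℝ) ≤ (k : ℝ) + 1 := by linarith [Nat.cast_nonneg (α := ℝ) k]
  rw [h1]
  set X := Bk k ^ (8 * k + 13)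
  set K := (k : ℝ) + 1
  have h6 : K * X + 2 ≤ 3 * (K * X) := by nlinarith
  calc _ ≤ 32 * K * (3 * (K * X)) := by gcongr
    _ = 96 * K * K * X := by ring
    _ ≤ Bk k * Bk k * Bk k * X := by gcongr
    _ = _ := by ring

end Pool.Agent.P.MP_bf5038_mp
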