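import Mathlib
import Pool.Agent.P.MP_bf5038_mp.GlobalODE
import Pool.Agent.P.MP_bf5038_mp.Barrier
import Pool.Agent.P.MP_bf5038_mp.Series

/-!
The profile `H (u, x, y) = Re ∑ a_k e^{i ω_k u} (x + i y)^{N_k}`: smooth, harmonic in `(x, y)`,
not quadratic at `u = 0`, and all trajectories of `z'' = ∇H / 2` are global.
-/

set_option autoImplicit false

namespace Pool.Agent.P.MP_bf5038_mp

open Set Complex

noncomputable def VF (u : ℝ) (x : ℂ × ℂ) : ℂ × ℂ := (x.2, star (F 0 1 (u, x.1) / 2))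

theorem contDiff_VF : ContDiff ℝ 1 fun p : ℝ × (ℂ × ℂ) => VF p.1 p.2 := by
  have h1 : ContDiff ℝ 1 fun p : ℝ × (ℂ × ℂ) => F 0 1 (p.1, p.2.1) / 2 :=
    ((contDiff_F_nat 1 0 1).comp (contDiff_fst.prodMk (contDiff_fst.comp contDiff_snd))).div_const 2
  exact (contDiff_snd.comp contDiff_snd).prodMk (conjCLE.contDiff.comp h1)

theorem exists_global (u₀ : ℝ) (z₀ v₀ : ℂ) :
    ∃ z v : ℝ → ℂ, z u₀ = z₀ ∧ v u₀ = v₀ ∧
      ∀ t, HasDerivAt z (v t) t ∧ HasDerivAt v (star (F 0 1 (t, z t) / 2)) t := by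
  have key := exists_global_solution VF contDiff_VF u₀ (z₀, v₀) fun T => by
    obtain ⟨k, hk⟩ := exists_nat_ge (max T (max (2 * ‖z₀‖) (8 * ‖v₀‖)))
    simp only [max_le_iff] at hk
    obtain ⟨hk1, hk2, hk3⟩ := hk
    refine ⟨rho (k + 1) + 2 * Bk (k + 1) + 1, fun a ha haT γ hγ0 hγ t ht => ?_⟩
    have hm := m_ge (k + 1)
    obtain ⟨j, hj⟩ : ∃ j, 4 * m (k + 1) = j + 2 := ⟨4 * m (k + 1) - 2, by omega⟩
    have hcube : (3072 : ℝ) * (m (k + 1) : ℝ) ^ 3 ≤ Bk (k + 1) ^ 2 := by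
      have := cube_le (m (k + 1)) (by omega)
      unfold Bk; exact_mod_cast this
    have hmr : (k : ℝ) + 13 ≤ m (k + 1) := by exact_mod_cast hm
    have hk0 : (0 : ℝ) ≤ k := Nat.cast_nonneg k
    have hB := Bk_pos (k + 1)
    have hj' : ((j + 2 : ℕ) : ℝ) = 4 * m (k + 1) := by rw [← hj]; push_cast; ring
    have hmB : 4 * (m (k + 1) : ℝ) ≤ Bk (k + 1) :=
      le_of_pow_le_pow_left₀ two_ne_zero hB.le (by nlinarith [sq_nonneg (m (k + 1) : ℝ)])
    have hkr : (k : ℝ) ≤ rho (k + 1) := by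
      have : k ≤ 4 ^ (k + 1) :=
        le_trans (Nat.le_succ k) (Nat.lt_pow_self (by norm_num)).le
      unfold rho; exact_mod_cast this
    have hb := barrier j (om (k + 1)) (cc (k + 1)) (rho (k + 1)) (Bk (k + 1))
      ((k + 1) * Bk k ^ (8 * k + 13) + 2) u₀ a (fun t => (γ t).1) (fun t => (γ t).2)
      (fun t => star (∑' i, if i = k + 1 then 0 else force i t (γ t).1)) (by omega)
      (one_le_pow₀ (by norm_num)) (cc_pos _)
      (by rw [← hj, cc, div_mul_cancel₀ _ (pow_pos (rho_pos _) _).ne'])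
      (by linarith) rfl (by rw [hj']; exact hmB) (by have := Bk_pos k; positivity) ha
      (le_trans (by
        have := Bk_pos k
        gcongr
        linarith) (param_M k))
      (by
        rw [hj']
        have : a ≤ m (k + 1) := by linarith
        calc _ ≤ 192 * (m (k + 1) : ℝ) * (4 * m (k + 1)) ^ 2 := by gcongr
          _ = 3072 * (m (k + 1) : ℝ) ^ 3 := by ring
          _ ≤ _ := hcube)
      (fun t ht => (hγ t ht).fst)
      (fun t ht => by
        have := (hγ t ht).snd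
        rw [VF, F_zero_one (k + 1), star_add, force, hj] at this
        exact this)
      (fun t _ h => by rw [norm_star]; exact norm_other_le k t _ h)
      (by simp only [hγ0]; linarith) (by simp only [hγ0]; linarith) t ht
    have := rho_pos (k + 1)
    rw [Prod.norm_def]
    exact max_lt (by linarith [hb.1]) (by linarith [hb.2])
  obtain ⟨γ, h0, hγ⟩ := key
  exact ⟨fun t => (γ t).1, fun t => (γ t).2, by simp [h0], by simp [h0],
    fun t => ⟨(hγ t).fst, (hγ t).snd⟩⟩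

theorem exists_geodesic (u₀ a : ℝ) (z₀ v₀ : ℂ) :
    ∃ z v : ℝ → ℂ, z 0 = z₀ ∧ v 0 = v₀ ∧ ∀ s, HasDerivAt z (v s) s ∧
      HasDerivAt v ((a ^ 2 : ℝ) * star (F 0 1 (u₀ + a * s, z s) / 2)) s := by
  rcases eq_or_ne a 0 with rfl | ha
  · refine ⟨fun s => z₀ + v₀ * s, fun _ => v₀, by simp, rfl, fun s => ⟨?_, ?_⟩⟩
    · simpa using ((ofRealCLM.hasDerivAt (x := s)).const_mul v₀).const_add z₀
    · simpa using hasDerivAt_const s v₀
  · obtain ⟨z, v, h1, h2, h⟩ := exists_global u₀ z₀ (v₀ / a)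
    have ha' : (a : ℂ) ≠ 0 := by exact_mod_cast ha
    have hl : ∀ s : ℝ, HasDerivAt (fun s : ℝ => u₀ + a * s) a s := fun s => by
      simpa using ((hasDerivAt_id s).const_mul a).const_add u₀
    refine ⟨fun s => z (u₀ + a * s), fun s => a * v (u₀ + a * s), by simp [h1], ?_,
      fun s => ⟨?_, ?_⟩⟩
    · simp only [mul_zero, add_zero, h2]; field_simp
    · exact HasDerivAt.congr_deriv ((h (u₀ + a * s)).1.scomp s (hl s)) real_smul
    · refine HasDerivAt.congr_deriv (((h (u₀ + a * s)).2.scomp s (hl s)).const_mul (a : ℂ)) ?_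
      simp only [real_smul]
      push_cast
      ring

/-- the profile -/
noncomputable def Hp (u x y : ℝ) : ℝ := (F 0 0 (u, x + y * I)).re

theorem hasDerivAt_re {f : ℝ → ℂ} {f' : ℂ} {s : ℝ} (h : HasDerivAt f f' s) :
    HasDerivAt (fun s => (f s).re) f'.re s :=
  reCLM.hasFDerivAt.comp_hasDerivAt s h

theorem hasDerivAt_im {f : ℝ → ℂ} {f' : ℂ} {s : ℝ} (h : HasDerivAt f f' s) :
    HasDerivAt (fun s => (f s).im) f'.im s :=
  imCLM.hasFDerivAt.comp_hasDerivAt s h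

theorem hasDerivAt_x (q : ℕ) (u x y : ℝ) :
    HasDerivAt (fun ξ : ℝ => F 0 q (u, ξ + y * I)) (F 0 (q + 1) (u, x + y * I)) x := by
  simpa using hasDerivAt_F_comp 0 q (hasDerivAt_const x u)
    ((ofRealCLM.hasDerivAt (x := x)).add_const (y * I))

theorem hasDerivAt_y (q : ℕ) (u x y : ℝ) :
    HasDerivAt (fun η : ℝ => F 0 q (u, x + η * I)) (F 0 (q + 1) (u, x + y * I) * I) y := by
  simpa using hasDerivAt_F_comp 0 q (hasDerivAt_const y u)
    (((ofRealCLM.hasDerivAt (x := y)).mul_const I).const_add (x : ℂ))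

theorem deriv_x (u x y : ℝ) : deriv (fun ξ => Hp u ξ y) x = (F 0 1 (u, x + y * I)).re :=
  (hasDerivAt_re (hasDerivAt_x 0 u x y)).deriv

theorem deriv_y (u x y : ℝ) : deriv (fun η => Hp u x η) y = -(F 0 1 (u, x + y * I)).im := by
  simpa [Hp] using (hasDerivAt_re (hasDerivAt_y 0 u x y)).deriv

theorem deriv_u (u x y : ℝ) : deriv (fun τ => Hp τ x y) u = (F 1 0 (u, x + y * I)).re := by
  have := hasDerivAt_F_comp 0 0 (hasDerivAt_id u) (hasDerivAt_const u ((x : ℂ) + y * I))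
  simpa [Hp] using (hasDerivAt_re this).deriv

theorem Hp_contDiff :
    ContDiff ℝ ((⊤ : ℕ∞) : WithTop ℕ∞) (fun p : ℝ × ℝ × ℝ => Hp p.1 p.2.1 p.2.2) := by
  have h1 : ContDiff ℝ ((⊤ : ℕ∞) : WithTop ℕ∞)
      (fun p : ℝ × ℝ × ℝ => (p.1, (p.2.1 : ℂ) + p.2.2 * I)) :=
    contDiff_fst.prodMk ((ofRealCLM.contDiff.comp (contDiff_fst.comp contDiff_snd)).add
      ((ofRealCLM.contDiff.comp (contDiff_snd.comp contDiff_snd)).mul contDiff_const))
  exact reCLM.contDiff.comp ((contDiff_F 0 0).comp h1)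

theorem Hp_harmonic (u x y : ℝ) :
    deriv (fun ξ => deriv (fun η => Hp u η y) ξ) x
      + deriv (fun ξ => deriv (fun η => Hp u x η) ξ) y = 0 := by
  simp only [deriv_x, deriv_y]
  rw [(hasDerivAt_re (hasDerivAt_x 1 u x y)).deriv,
    (hasDerivAt_im (hasDerivAt_y 1 u x y)).fun_neg.deriv]
  simp

theorem Hp_not_quadratic : ¬ ∃ a b c d e f : ℝ, ∀ x y : ℝ,
    Hp 0 x y = a + b * x + c * y + d * x ^ 2 + e * x * y + f * y ^ 2 := by
  rintro ⟨a, b, c, d, e, f, h⟩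
  have hs : ∀ x : ℝ, HasSum (fun k => coef k * x ^ (4 * m k + 1)) (Hp 0 x 0) := fun x => by
    have := Complex.hasSum_re (summable_term 0 0 (0, (x : ℂ) + (0 : ℝ) * I)).hasSum
    have e : ∀ k, (term 0 0 k (0, (x : ℂ) + (0 : ℝ) * I)).re = coef k * x ^ (4 * m k + 1) := by
      intro k
      have : term 0 0 k (0, (x : ℂ) + (0 : ℝ) * I) = ((coef k * x ^ (4 * m k + 1) : ℝ) : ℂ) := by
        simp [term]
      rw [this, ofReal_re]
    simp only [e] at this
    exact this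
  have h1 := (((hs 2).sub ((hs 1).mul_left 3)).add ((hs 0).mul_left 3)).sub (hs (-1))
  have h2 : Hp 0 2 0 - 3 * Hp 0 1 0 + 3 * Hp 0 0 0 - Hp 0 (-1) 0 = 0 := by
    simp only [h]; ring
  rw [h2] at h1
  have h3 : ∀ k, 0 < coef k * 2 ^ (4 * m k + 1) - 3 * (coef k * 1 ^ (4 * m k + 1)) +
      3 * (coef k * 0 ^ (4 * m k + 1)) - coef k * (-1) ^ (4 * m k + 1) := by
    intro k
    have hm := m_ge k
    have a1 : (-1 : ℝ) ^ (4 * m k + 1) = -1 := Odd.neg_one_pow ⟨2 * m k, by ring⟩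
    have a2 : (2 : ℝ) ^ 2 ≤ 2 ^ (4 * m k + 1) := pow_le_pow_right₀ one_le_two (by omega)
    have a3 := coef_pos k
    rw [a1, one_pow, zero_pow (by omega)]
    nlinarith
  exact absurd (le_hasSum h1 0 fun j _ => (h3 j).le) (not_le.2 (h3 0))

theorem exists_antiderivative {φ : ℝ → ℝ} (hφ : Continuous φ) (b : ℝ) :
    ∃ Φ : ℝ → ℝ, Φ 0 = b ∧ ∀ s, HasDerivAt Φ (φ s) s :=
  ⟨fun s => b + ∫ x in (0 : ℝ)..s, φ x, by simp,
    fun s => (hφ.integral_hasStrictDerivAt 0 s).hasDerivAt.const_add b⟩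

theorem Hp_complete (u₀ v₀ x₀ y₀ a b c d : ℝ) : ∃ U V X Y U' V' X' Y' : ℝ → ℝ,
    U 0 = u₀ ∧ V 0 = v₀ ∧ X 0 = x₀ ∧ Y 0 = y₀ ∧
    U' 0 = a ∧ V' 0 = b ∧ X' 0 = c ∧ Y' 0 = d ∧
    ∀ s : ℝ,
      HasDerivAt U (U' s) s ∧ HasDerivAt V (V' s) s ∧
      HasDerivAt X (X' s) s ∧ HasDerivAt Y (Y' s) s ∧
      HasDerivAt U' 0 s ∧
      HasDerivAt X' ((1 / 2) * deriv (fun ξ => Hp (U s) ξ (Y s)) (X s) * U' s ^ 2) s ∧
      HasDerivAt Y' ((1 / 2) * deriv (fun η => Hp (U s) (X s) η) (Y s) * U' s ^ 2) s ∧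
      HasDerivAt V'
        (-(1 / 2) * deriv (fun τ => Hp τ (X s) (Y s)) (U s) * U' s ^ 2
          - deriv (fun ξ => Hp (U s) ξ (Y s)) (X s) * U' s * X' s
          - deriv (fun η => Hp (U s) (X s) η) (Y s) * U' s * Y' s) s := by
  obtain ⟨z, v, hz0, hv0, h⟩ := exists_geodesic u₀ a (x₀ + y₀ * I) (c + d * I)
  have hzc : Continuous z := continuous_iff_continuousAt.2 fun s => (h s).1.continuousAt
  have hvc : Continuous v := continuous_iff_continuousAt.2 fun s => (h s).2.continuousAt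
  have hFc : ∀ p q, Continuous fun s => F p q (u₀ + a * s, z s) := fun p q =>
    (contDiff_F p q).continuous.comp (by fun_prop)
  obtain ⟨V', hV'0, hV'⟩ := exists_antiderivative
    (φ := fun s => -(1 / 2) * (F 1 0 (u₀ + a * s, z s)).re * a ^ 2
      - (F 0 1 (u₀ + a * s, z s)).re * a * (v s).re
      - (-(F 0 1 (u₀ + a * s, z s)).im) * a * (v s).im) (by
        have := hFc 1 0
        have := hFc 0 1
        fun_prop) b
  obtain ⟨V, hV0, hV⟩ := exists_antiderivative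
    (continuous_iff_continuousAt.2 fun s => (hV' s).continuousAt) v₀
  refine ⟨fun s => u₀ + a * s, V, fun s => (z s).re, fun s => (z s).im, fun _ => a, V',
    fun s => (v s).re, fun s => (v s).im, by simp, hV0, by simp [hz0], by simp [hz0], rfl, hV'0,
    by simp [hv0], by simp [hv0], fun s => ⟨?_, hV s, hasDerivAt_re (h s).1, hasDerivAt_im (h s).1,
      hasDerivAt_const s a, ?_, ?_, ?_⟩⟩
  · simpa using ((hasDerivAt_id s).const_mul a).const_add u₀
  · refine HasDerivAt.congr_deriv (hasDerivAt_re (h s).2) ?_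
    rw [deriv_x, re_add_im, re_ofReal_mul]
    simp
    ring
  · refine HasDerivAt.congr_deriv (hasDerivAt_im (h s).2) ?_
    rw [deriv_y, re_add_im, im_ofReal_mul]
    simp
    ring
  · simp only [deriv_x, deriv_y, deriv_u, re_add_im]
    exact hV' s

end Pool.Agent.P.MP_bf5038_mp
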