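import Pool.Agent.P.MP_bf5038_mp.HDefs
import Pool.Agent.P.MP_bf5038_mp.Main

/-!
Christoffel symbols, Ricci tensor and geodesics of a pp-wave.
-/

set_option autoImplicit false

noncomputable section

namespace Pool.Agent.P.MP_bf5038_mp.H

open Set

variable (H : ℝ → ℝ → ℝ → ℝ)

def hu (p : Pt) : ℝ := deriv (fun t => H t (p 2) (p 3)) (p 0)
def hx (p : Pt) : ℝ := deriv (fun t => H (p 0) t (p 3)) (p 2)
def hy (p : Pt) : ℝ := deriv (fun t => H (p 0) (p 2) t) (p 3)

theorem inv_ppw (p : Pt) : (ppw H p)⁻¹ =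
    !![0, 1, 0, 0; 1, -H (p 0) (p 2) (p 3), 0, 0; 0, 0, 1, 0; 0, 0, 0, 1] := by
  refine Matrix.inv_eq_right_inv ?_
  ext i j
  fin_cases i <;> fin_cases j <;> simp [ppw, Matrix.mul_apply, Fin.sum_univ_four]

theorem pd_ppw (l i j : Fin 4) (p : Pt) : pd l (fun q => ppw H q i j) p =
    if i = 0 ∧ j = 0 then ![hu H p, 0, hx H p, hy H p] l else 0 := by
  fin_cases i <;> fin_cases j <;> simp [pd, ppw]
  fin_cases l <;> simp [hu, hx, hy, Function.update]

def tab (k i j : Fin 4) (p : Pt) : ℝ :=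
  1 / 2 * (![0, !![hu H p, 0, hx H p, hy H p; 0, 0, 0, 0; hx H p, 0, 0, 0; hy H p, 0, 0, 0],
    !![-hx H p, 0, 0, 0; 0, 0, 0, 0; 0, 0, 0, 0; 0, 0, 0, 0],
    !![-hy H p, 0, 0, 0; 0, 0, 0, 0; 0, 0, 0, 0; 0, 0, 0, 0]] :
      Fin 4 → Matrix (Fin 4) (Fin 4) ℝ) k i j

theorem chr_ppw (k i j : Fin 4) : chr (ppw H) k i j = tab H k i j := by
  funext p
  simp only [chr, tab, inv_ppw, pd_ppw, Fin.sum_univ_four]
  fin_cases k <;> fin_cases i <;> fin_cases j <;> simp

theorem ricci_ppw (h : ∀ u x y : ℝ, deriv (fun ξ => deriv (fun η => H u η y) ξ) x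
    + deriv (fun ξ => deriv (fun η => H u x η) ξ) y = 0) (i j : Fin 4) (p : Pt) :
    ricci (ppw H) i j p = 0 := by
  have := h (p 0) (p 2) (p 3)
  simp only [ricci, chr_ppw, Fin.sum_univ_four, pd]
  fin_cases i <;> fin_cases j <;> simp [tab, hu, hx, hy, Function.update]
  linarith

/-- the geodesic spray -/
def spray (z : Pt × Pt) : Pt × Pt :=
  (z.2, ![0, -(1 / 2) * hu H z.1 * z.2 0 ^ 2 - hx H z.1 * z.2 0 * z.2 2 - hy H z.1 * z.2 0 * z.2 3,
    1 / 2 * hx H z.1 * z.2 0 ^ 2, 1 / 2 * hy H z.1 * z.2 0 ^ 2])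

theorem acc_eq (p w : Pt) :
    (fun k => -∑ i, ∑ j, chr (ppw H) k i j p * w i * w j) = (spray H (p, w)).2 := by
  funext k
  simp only [chr_ppw, Fin.sum_univ_four]
  fin_cases k <;> simp [tab, spray] <;> ring

theorem contDiff_spray : ContDiff ℝ 1 (spray Hp) := by
  have h0 : ∀ a b, ContDiff ℝ 1 fun z : Pt × Pt => F a b (z.1 0, z.1 2 + z.1 3 * Complex.I) :=
    fun a b => (contDiff_F_nat 1 a b).comp ((by fun_prop : ContDiff ℝ 1 fun z : Pt × Pt =>
      z.1 0).prodMk ((Complex.ofRealCLM.contDiff.comp (by fun_prop)).add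
        ((Complex.ofRealCLM.contDiff.comp (by fun_prop)).mul contDiff_const)))
  have h1 : ContDiff ℝ 1 fun z : Pt × Pt => hu Hp z.1 := by
    simp only [hu, deriv_u]
    exact Complex.reCLM.contDiff.comp (h0 1 0)
  have h2 : ContDiff ℝ 1 fun z : Pt × Pt => hx Hp z.1 := by
    simp only [hx, deriv_x]
    exact Complex.reCLM.contDiff.comp (h0 0 1)
  have h3 : ContDiff ℝ 1 fun z : Pt × Pt => hy Hp z.1 := by
    simp only [hy, deriv_y]
    exact (Complex.imCLM.contDiff.comp (h0 0 1)).neg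
  refine contDiff_snd.prodMk (contDiff_pi.2 fun k => ?_)
  fin_cases k <;> simp <;> fun_prop

theorem ode_unique {E : Type} [NormedAddCommGroup E] [NormedSpace ℝ E] [FiniteDimensional ℝ E]
    {V : E → E} (hV : ContDiff ℝ 1 V) {I : Set ℝ} (hI : IsOpen I) (hc : I.OrdConnected)
    {f g : ℝ → E} (hf : ∀ s ∈ I, HasDerivAt f (V (f s)) s)
    (hg : ∀ s ∈ I, HasDerivAt g (V (g s)) s) {t₀ : ℝ} (ht₀ : t₀ ∈ I) (h : f t₀ = g t₀) :
    EqOn f g I := fun t ht => by
  obtain ⟨a, ha, ha1⟩ : ∃ a ∈ I, a < min t t₀ := by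
    have : min t t₀ ∈ I := by rcases min_choice t t₀ with h | h <;> rwa [h]
    obtain ⟨a, h1, h2⟩ := ((eventually_mem_nhdsWithin (s := Iio (min t t₀))).and
      (nhdsWithin_le_nhds (hI.mem_nhds this))).exists
    exact ⟨a, h2, h1⟩
  obtain ⟨b, hb, hb1⟩ : ∃ b ∈ I, max t t₀ < b := by
    have : max t t₀ ∈ I := by rcases max_choice t t₀ with h | h <;> rwa [h]
    obtain ⟨a, h1, h2⟩ := ((eventually_mem_nhdsWithin (s := Ioi (max t t₀))).and
      (nhdsWithin_le_nhds (hI.mem_nhds this))).exists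
    exact ⟨a, h2, h1⟩
  have hs : Icc a b ⊆ I := hc.out ha hb
  obtain ⟨R, hR⟩ := isCompact_Icc.exists_bound_of_continuousOn (s := Icc a b)
    (f := fun s => (f s, g s)) fun s h =>
      ((hf s (hs h)).continuousAt.prodMk (hg s (hs h)).continuousAt).continuousWithinAt
  obtain ⟨K, hK⟩ := lipschitz_on_box (fun _ => V) (hV.comp contDiff_snd) a b 0 R
  rw [lt_min_iff] at ha1
  rw [max_lt_iff] at hb1
  exact ODE_solution_unique_of_mem_Ioo (v := fun _ => V) (t₀ := t₀)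
    (s := fun _ => Metric.closedBall (0 : E) R)
    (fun t ht => hK t (Ioo_subset_Icc_self ht)) ⟨ha1.2, hb1.2⟩
    (fun s h => ⟨hf s (hs (Ioo_subset_Icc_self h)), by
      simpa using (norm_fst_le _).trans (hR s (Ioo_subset_Icc_self h))⟩)
    (fun s h => ⟨hg s (hs (Ioo_subset_Icc_self h)), by
      simpa using (norm_snd_le _).trans (hR s (Ioo_subset_Icc_self h))⟩) h ⟨ha1.1, hb1.1⟩

theorem exists_global_spray (t₀ : ℝ) (z₀ : Pt × Pt) :
    ∃ f : ℝ → Pt × Pt, f t₀ = z₀ ∧ ∀ s, HasDerivAt f (spray Hp (f s)) s := by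
  obtain ⟨U, V, X, Y, U', V', X', Y', a1, a2, a3, a4, a5, a6, a7, a8, h⟩ :=
    Hp_complete (z₀.1 0) (z₀.1 1) (z₀.1 2) (z₀.1 3) (z₀.2 0) (z₀.2 1) (z₀.2 2) (z₀.2 3)
  let f : ℝ → Pt × Pt := fun s => (![U s, V s, X s, Y s], ![U' s, V' s, X' s, Y' s])
  have hf : ∀ s, HasDerivAt f (spray Hp (f s)) s := fun s => by
    obtain ⟨b1, b2, b3, b4, b5, b6, b7, b8⟩ := h s
    refine HasDerivAt.prodMk (hasDerivAt_pi.2 fun k => ?_) (hasDerivAt_pi.2 fun k => ?_)
    · fin_cases k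
      exacts [b1, b2, b3, b4]
    · fin_cases k
      exacts [b5, b8, b6, b7]
  refine ⟨fun s => f (s - t₀), ?_, fun s => (hf (s - t₀)).comp_sub_const s t₀⟩
  simp only [f, sub_self, a1, a2, a3, a4, a5, a6, a7, a8]
  refine Prod.ext (funext fun k => ?_) (funext fun k => ?_) <;> fin_cases k <;> rfl

theorem complete_Hp : Complete (ppw Hp) := by
  rintro I hI hc γ ⟨γ', hγ⟩
  simp only [acc_eq] at hγ
  have key : ∀ f : ℝ → Pt × Pt, (∀ s, HasDerivAt f (spray Hp (f s)) s) →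
      IsGeodesicOn (ppw Hp) (fun s => (f s).1) univ := fun f hf =>
    ⟨fun s => (f s).2, fun s _ => ⟨(hf s).fst, by rw [acc_eq]; exact (hf s).snd⟩⟩
  rcases I.eq_empty_or_nonempty with rfl | ⟨t₀, ht₀⟩
  · obtain ⟨f, -, hf⟩ := exists_global_spray 0 0
    exact ⟨_, key f hf, eqOn_empty _ _⟩
  · obtain ⟨f, h0, hf⟩ := exists_global_spray t₀ (γ t₀, γ' t₀)
    exact ⟨_, key f hf, fun t ht => congrArg Prod.fst (ode_unique contDiff_spray hI hc
      (g := fun s => (γ s, γ' s)) (fun s _ => hf s)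
      (fun s hs => (hγ s hs).1.prodMk (hγ s hs).2) ht₀ h0 ht)⟩

theorem periodic_Hp (u x y : ℝ) : Hp (u + 2 * Real.pi) x y = Hp u x y := by
  simp only [Hp, F, term]
  congr 2
  funext k
  congr 2
  have : Complex.I * om k * (u + 2 * Real.pi : ℝ) =
      Complex.I * om k * u + ((2 ^ m k) ^ 4 : ℕ) * (2 * Real.pi * Complex.I) := by
    simp only [om, Bk]
    push_cast
    ring
  rw [this, Complex.exp_add, Complex.exp_nat_mul_two_pi_mul_I, mul_one]

theorem F_at_zero (k : ℕ) (u : ℝ) : F 0 (4 * m k + 1) (u, 0) ≠ 0 := by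
  have hm : StrictMono m := strictMono_nat_of_lt_succ fun k => by
    have := m_ge k
    simp only [m]
    nlinarith
  rw [F, tsum_eq_single k fun j hj => ?_]
  · have := (coef_pos k).ne'
    simp [term, this, Nat.descFactorial_eq_zero_iff_lt]
  · rcases lt_or_gt_of_ne hj with h | h
    · have := hm h
      simp only [term]
      rw [Nat.descFactorial_eq_zero_iff_lt.2 (by omega)]
      simp
    · have := hm h
      simp only [term]
      rw [zero_pow (by omega)]
      simp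

theorem line_zero (u : ℝ) (c : ℂ) (p : Polynomial ℝ)
    (h : ∀ x : ℝ, (F 0 0 (u, x * c)).re = p.eval x) {q : ℕ} (hq : p.natDegree < q) :
    (F 0 q (u, 0) * c ^ q).re = 0 := by
  have : ∀ q : ℕ, ∀ x : ℝ, (F 0 q (u, x * c) * c ^ q).re =
      (Polynomial.derivative^[q] p).eval x := by
    intro q
    induction q with
    | zero => simpa using h
    | succ q ih =>
      intro x
      have h1 := hasDerivAt_re ((hasDerivAt_F_comp 0 q (hasDerivAt_const x u)
        ((Complex.ofRealCLM.hasDerivAt (x := x)).mul_const c)).mul_const (c ^ q))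
      simp only [Complex.ofRealCLM_apply, ih] at h1
      rw [Function.iterate_succ_apply', ← h1.unique (Polynomial.hasDerivAt _ x)]
      congr 1
      simp
      ring
  simpa [Polynomial.iterate_derivative_eq_zero hq] using this q 0

theorem not_poly (u : ℝ) :
    ¬ ∃ P : MvPolynomial (Fin 2) ℝ, ∀ x y, Hp u x y = MvPolynomial.eval ![x, y] P := by
  rintro ⟨P, hP⟩
  have h1 : ∀ a b : ℝ, ∃ p : Polynomial ℝ, ∀ x, MvPolynomial.eval ![x * a, x * b] P = p.eval x := by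
    intro a b
    clear hP
    induction P using MvPolynomial.induction_on with
    | C c => exact ⟨Polynomial.C c, by simp⟩
    | add P Q hP hQ =>
      obtain ⟨p, hp⟩ := hP
      obtain ⟨q, hq⟩ := hQ
      exact ⟨p + q, by simp [hp, hq]⟩
    | mul_X P i hP =>
      obtain ⟨p, hp⟩ := hP
      refine ⟨p * (Polynomial.X * Polynomial.C (![a, b] i)), fun x => ?_⟩
      fin_cases i <;> simp [hp] <;> exact Or.inl (mul_comm _ _)
  obtain ⟨p, hp⟩ := h1 1 0
  obtain ⟨q, hq⟩ := h1 0 1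
  set k := p.natDegree + q.natDegree
  have hk := m_ge k
  have a1 := line_zero u 1 p (fun x => by rw [← hp, ← hP]; simp [Hp]) (q := 4 * m k + 1) (by omega)
  have a2 := line_zero u Complex.I q (fun x => by rw [← hq, ← hP]; simp [Hp]) (q := 4 * m k + 1)
    (by omega)
  rw [pow_succ, pow_mul, Complex.I_pow_four] at a2
  exact F_at_zero k u (Complex.ext (by simpa using a1) (by simpa using a2))

end Pool.Agent.P.MP_bf5038_mp.H
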